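import Mathlib
import Pool.Agent.Helper656.SobDefs
import Pool.Agent.Helper656.SobCore

/-!
Q2 of MP_941809_an, negative answer in full: no homeomorphism of class `WBV` has vanishing
Jacobian almost everywhere (all dimensions `n`).
-/

open MeasureTheory Set Filter Topology Metric
open scoped ENNReal ContDiff
open Pool.Agent.Helper656.Sob

namespace Pool.Agent.Results.MP_941809_an.SecondOrderBV

/-- The distributional derivative `∂_l u` on `Ω` is the finite signed Radon measure `μ - ν`
(`μ`, `ν` finite positive Borel measures on `ℝⁿ`): `∫ u ∂_l φ dx = - (∫ φ dμ - ∫ φ dν)` for every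
test function `φ` on `Ω`. -/
def IsMeasureDeriv {n : ℕ} (Ω : Set (E n)) (l : Fin n) (u : E n → ℝ) (μ ν : Measure (E n)) :
    Prop :=
  ∀ φ : E n → ℝ, IsTest Ω φ → ∫ x, u x * pd l φ x = - (∫ x, φ x ∂μ - ∫ x, φ x ∂ν)

/-- `f ∈ WBV(Ω, ℝⁿ)`: `f ∈ W^{1,1}(Ω, ℝⁿ)` with weak Jacobian matrix `G` (`G x i j` is the weak
derivative `∂_j f_i` at `x`), and all distributional second derivatives `∂_l ∂_j f_i` are finite
signed Radon measures. -/
structure IsWBV {n : ℕ} (Ω : Set (E n)) (f : E n → E n)
    (G : E n → Matrix (Fin n) (Fin n) ℝ) : Prop where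
  f_int : ∀ i, IntegrableOn (fun x => f x i) Ω
  G_int : ∀ i j, IntegrableOn (fun x => G x i j) Ω
  G_weak : ∀ i j, IsWeakDeriv Ω j (fun x => f x i) (fun x => G x i j)
  second : ∀ i j l, ∃ μ ν : Measure (E n), IsFiniteMeasure μ ∧ IsFiniteMeasure ν ∧
    IsMeasureDeriv Ω l (fun x => G x i j) μ ν

theorem bv_cutoff {n : ℕ} {Ω : Set (E n)} (hΩ : IsOpen Ω) {u : E n → ℝ} {l : Fin n}
    (hu : LocallyIntegrableOn u Ω) {μ ν : Measure (E n)} [IsFiniteMeasure μ] [IsFiniteMeasure ν]
    (h : IsMeasureDeriv Ω l u μ ν) {κ : E n → ℝ} (hκ : IsTest Ω κ) :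
    ∃ C, 0 ≤ C ∧ BVBound univ l (fun x => κ x * u x) C := by
  obtain ⟨T, hT⟩ : ∃ T, ∀ x, |κ x| ≤ T := by
    obtain ⟨T, hT⟩ := hκ.2.1.exists_bound_of_continuous hκ.1.continuous
    exact ⟨T, fun z => by simpa using hT z⟩
  have hT0 : 0 ≤ T := (abs_nonneg _).trans (hT 0)
  have hup : Integrable (fun x => pd l κ x * u x) :=
    integrable_test_mul (pd_smooth l hκ.1).continuous (pd_hasCompactSupport l hκ.2.1)
      ((pd_support l κ).trans hκ.2.2) hu
  refine ⟨(μ.real univ + ν.real univ) * T + ∫ x, |pd l κ x * u x|, ?_, ?_⟩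
  · have : 0 ≤ ∫ x, |pd l κ x * u x| := integral_nonneg fun x => abs_nonneg _
    positivity
  intro φ M hφ hM
  have hM0 : 0 ≤ M := (abs_nonneg _).trans (hM 0)
  have hκφ : IsTest Ω (fun x => κ x * φ x) :=
    ⟨hκ.1.mul hφ.1, hκ.2.1.mul_right, (tsupport_mul_subset_left).trans hκ.2.2⟩
  have hpd : ∀ x, pd l (fun x => κ x * φ x) x = κ x * pd l φ x + φ x * pd l κ x := fun x =>
    pd_mul l (hκ.1.differentiable (by simp) x) (hφ.1.differentiable (by simp) x)
  have hi1 : Integrable (fun x => u x * pd l (fun x => κ x * φ x) x) := by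
    have := integrable_test_mul (pd_smooth l hκφ.1).continuous (pd_hasCompactSupport l hκφ.2.1)
      ((pd_support l _).trans hκφ.2.2) hu
    exact this.congr (Filter.Eventually.of_forall fun x => mul_comm _ _)
  have hi2 : Integrable (fun x => φ x * (pd l κ x * u x)) :=
    hup.bdd_mul hφ.1.continuous.aestronglyMeasurable
      (Filter.Eventually.of_forall fun x => by simpa using hM x)
  have e1 : ∫ x, (κ x * u x) * pd l φ x =
      (∫ x, u x * pd l (fun x => κ x * φ x) x) - ∫ x, φ x * (pd l κ x * u x) := by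
    rw [← integral_sub hi1 hi2]
    refine integral_congr_ae (Filter.Eventually.of_forall fun x => ?_)
    simp only [hpd]; ring
  have hb : ∀ x, |κ x * φ x| ≤ T * M := fun x => by
    rw [abs_mul]
    exact mul_le_mul (hT x) (hM x) (abs_nonneg _) hT0
  have h1 : |∫ x, u x * pd l (fun x => κ x * φ x) x| ≤ (μ.real univ + ν.real univ) * (T * M) := by
    rw [h _ hκφ, abs_neg]
    have a1 : |∫ x, κ x * φ x ∂μ| ≤ (T * M) * μ.real univ := by
      have := norm_integral_le_of_norm_le_const (μ := μ) (f := fun x => κ x * φ x) (C := T * M)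
        (Filter.Eventually.of_forall fun x => by simpa using hb x)
      simpa using this
    have a2 : |∫ x, κ x * φ x ∂ν| ≤ (T * M) * ν.real univ := by
      have := norm_integral_le_of_norm_le_const (μ := ν) (f := fun x => κ x * φ x) (C := T * M)
        (Filter.Eventually.of_forall fun x => by simpa using hb x)
      simpa using this
    refine (abs_sub _ _).trans ((add_le_add a1 a2).trans (le_of_eq (by ring)))
  have h2 : |∫ x, φ x * (pd l κ x * u x)| ≤ (∫ x, |pd l κ x * u x|) * M := by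
    refine (abs_integral_le_integral_abs).trans ?_
    rw [← integral_mul_const]
    refine integral_mono_of_nonneg (Filter.Eventually.of_forall fun x => abs_nonneg _)
      (hup.abs.mul_const M) (Filter.Eventually.of_forall fun x => ?_)
    simp only
    rw [abs_mul, mul_comm]
    exact mul_le_mul_of_nonneg_left (hM x) (abs_nonneg _)
  rw [e1]
  refine (abs_sub _ _).trans ((add_le_add h1 h2).trans (le_of_eq (by ring)))

/-- Every continuous injective `f ∈ WBV(Ω, ℝⁿ)`, in particular every homeomorphism onto its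
image, has `J_f ≠ 0` on a set of positive measure: for every dimension `n` and every nonempty
open `Ω ⊆ ℝⁿ`. -/
theorem result (n : ℕ) (Ω : Set (E n)) (hΩ : IsOpen Ω) (hne : Ω.Nonempty)
    (f : E n → E n) (hf : ContinuousOn f Ω) (hinj : InjOn f Ω)
    (G : E n → Matrix (Fin n) (Fin n) ℝ) (hW : IsWBV Ω f G) :
    0 < volume {x | x ∈ Ω ∧ (G x).det ≠ 0} := by
  have hG : ∀ i j, LocallyIntegrableOn (fun x => G x i j) Ω := fun i j =>
    (hW.G_int i j).locallyIntegrableOn
  refine main hΩ hne f hf hinj G hG hW.G_weak ?_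
  intro κ hκ
  have hex : ∀ i j l, ∃ C, 0 ≤ C ∧ BVBound univ l (fun x => κ x * G x i j) C := by
    intro i j l
    obtain ⟨μ, ν, hμ, hν, h⟩ := hW.second i j l
    exact bv_cutoff hΩ (hG i j) h hκ
  choose C hC0 hC using hex
  refine ⟨∑ i, ∑ j, ∑ l, C i j l, ?_⟩
  intro i j l φ M hφ hM
  have hM0 : 0 ≤ M := (abs_nonneg _).trans (hM 0)
  refine (hC i j l φ M hφ hM).trans (mul_le_mul_of_nonneg_right ?_ hM0)
  calc C i j l ≤ ∑ l, C i j l :=
        Finset.single_le_sum (f := fun l => C i j l) (fun l _ => hC0 i j l) (Finset.mem_univ l)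
    _ ≤ ∑ j, ∑ l, C i j l :=
        Finset.single_le_sum (f := fun j => ∑ l, C i j l)
          (fun j _ => Finset.sum_nonneg fun l _ => hC0 i j l) (Finset.mem_univ j)
    _ ≤ ∑ i, ∑ j, ∑ l, C i j l :=
        Finset.single_le_sum (f := fun i => ∑ j, ∑ l, C i j l)
          (fun i _ => Finset.sum_nonneg fun j _ => Finset.sum_nonneg fun l _ => hC0 i j l)
          (Finset.mem_univ i)

end Pool.Agent.Results.MP_941809_an.SecondOrderBV
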