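import Mathlib
import Pool.Agent.Helper656.SobDefs
import Pool.Agent.Helper656.SobCore

/-!
Q1 of MP_941809_an, negative answer in full (all `n`, all `1 ≤ q ≤ ∞`).

Proof idea: if `V` is a bounded vector field with `div`-type BV bounds and `Df · V = 0` a.e., then
`V = 0`, because the functions `F ∘ f` (`F` a polynomial) are dense in `C(K)` by
Stone-Weierstrass (`f` is injective) and are all annihilated by `V`.  If `det Df = 0` a.e., the
truncated vectors of minors of `Df` are such fields, so all minors of `Df` vanish, down to the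
empty minor `1`, which is absurd.
-/

open MeasureTheory Set Filter Topology Metric
open scoped ENNReal ContDiff
open Pool.Agent.Helper656.Sob

namespace Pool.Agent.Results.MP_941809_an.SecondOrderSobolev

/-- `f ∈ W^{2,q}(Ω, ℝⁿ)`: `G x i j` is the weak derivative `∂_j f_i` at `x` (so `G x` is the
weak Jacobian matrix `Df(x)`), `H i j l` is the weak derivative `∂_l ∂_j f_i`, and `f` and all
these weak derivatives of order at most two are in `L^q(Ω)`. -/
structure IsW2 {n : ℕ} (Ω : Set (E n)) (q : ℝ≥0∞) (f : E n → E n)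
    (G : E n → Matrix (Fin n) (Fin n) ℝ) (H : Fin n → Fin n → Fin n → E n → ℝ) : Prop where
  f_mem : ∀ i, MemLp (fun x => f x i) q (volume.restrict Ω)
  G_mem : ∀ i j, MemLp (fun x => G x i j) q (volume.restrict Ω)
  H_mem : ∀ i j l, MemLp (H i j l) q (volume.restrict Ω)
  G_weak : ∀ i j, IsWeakDeriv Ω j (fun x => f x i) (fun x => G x i j)
  H_weak : ∀ i j l, IsWeakDeriv Ω l (fun x => G x i j) (H i j l)

theorem locInt_of_memLp {n : ℕ} {Ω : Set (E n)} {q : ℝ≥0∞} (hq : 1 ≤ q) {u : E n → ℝ}
    (h : MemLp u q (volume.restrict Ω)) : LocallyIntegrableOn u Ω :=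
  locallyIntegrableOn_of_locallyIntegrable_restrict (h.locallyIntegrable hq)

/-- Sanity check (not used in the proof): the identity of the unit ball is an example of a map of
class `W^{2,q}` in the sense of `IsW2`, with Jacobian matrix `1`. -/
theorem isW2_id (n : ℕ) (q : ℝ≥0∞) :
    IsW2 (ball (0 : E n) 1) q (fun x => x) (fun _ => 1) (fun _ _ _ _ => 0) where
  f_mem := by
    intro i
    have : IsFiniteMeasure (volume.restrict (ball (0 : E n) 1)) :=
      ⟨by simpa using measure_ball_lt_top⟩
    refine MemLp.of_bound ((EuclideanSpace.proj (𝕜 := ℝ) i).continuous.aestronglyMeasurable) 1 ?_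
    rw [ae_restrict_iff' measurableSet_ball]
    refine Filter.Eventually.of_forall fun x hx => ?_
    have h1 : ‖x i‖ ≤ ‖x‖ := EuclideanSpace.norm_eq x ▸
      Real.le_sqrt_of_sq_le (Finset.single_le_sum (f := fun j => ‖x j‖ ^ 2)
        (fun j _ => by positivity) (Finset.mem_univ i))
    exact h1.trans (mem_ball_zero_iff.1 hx).le
  G_mem := by
    intro i j
    have : IsFiniteMeasure (volume.restrict (ball (0 : E n) 1)) :=
      ⟨by simpa using measure_ball_lt_top⟩
    exact memLp_const _
  H_mem := by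
    intro i j l
    exact MemLp.zero
  G_weak := by
    intro i j φ hφ
    have hpdx : ∀ x : E n, pd j (fun y : E n => y i) x = (1 : Matrix (Fin n) (Fin n) ℝ) i j := by
      intro x
      have : fderiv ℝ (fun y : E n => y i) x = (EuclideanSpace.proj (𝕜 := ℝ) i) :=
        (EuclideanSpace.proj (𝕜 := ℝ) i : E n →L[ℝ] ℝ).fderiv
      simp only [pd, this]
      simp [Matrix.one_apply]
    have hsm : ContDiff ℝ 1 (fun y : E n => y i) :=
      (EuclideanSpace.proj (𝕜 := ℝ) i : E n →L[ℝ] ℝ).contDiff
    have := integral_pd_mul j hsm (hφ.1.of_le (by simp)) hφ.2.1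
    rw [this]
    congr 1
    refine integral_congr_ae (Filter.Eventually.of_forall fun x => ?_)
    simp only [hpdx]; ring
  H_weak := by
    intro i j l φ hφ
    have := integral_pd_mul l (φ := fun _ : E n => (1 : Matrix (Fin n) (Fin n) ℝ) i j) (ψ := φ)
      contDiff_const (hφ.1.of_le (by simp)) hφ.2.1
    rw [this]
    simp [pd]

/-- Every continuous injective `f ∈ W^{2,q}(Ω, ℝⁿ)`, in particular every homeomorphism onto its
image, has `J_f ≠ 0` on a set of positive measure: for every dimension `n`, every nonempty open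
`Ω ⊆ ℝⁿ` and every exponent `1 ≤ q ≤ ∞`. -/
theorem result (n : ℕ) (Ω : Set (E n)) (hΩ : IsOpen Ω) (hne : Ω.Nonempty)
    (q : ℝ≥0∞) (hq : 1 ≤ q) (f : E n → E n) (hf : ContinuousOn f Ω) (hinj : InjOn f Ω)
    (G : E n → Matrix (Fin n) (Fin n) ℝ) (H : Fin n → Fin n → Fin n → E n → ℝ)
    (hW : IsW2 Ω q f G H) :
    0 < volume {x | x ∈ Ω ∧ (G x).det ≠ 0} := by
  have hG : ∀ i j, LocallyIntegrableOn (fun x => G x i j) Ω := fun i j =>
    locInt_of_memLp hq (hW.G_mem i j)
  have hH : ∀ i j l, LocallyIntegrableOn (H i j l) Ω := fun i j l =>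
    locInt_of_memLp hq (hW.H_mem i j l)
  refine main hΩ hne f hf hinj G hG hW.G_weak ?_
  intro κ hκ
  set W : Fin n → Fin n → Fin n → E n → ℝ := fun i j l x =>
    κ x * H i j l x + G x i j * pd l κ x with hWdef
  have hWint : ∀ i j l, Integrable (W i j l) := by
    intro i j l
    have h1 := integrable_test_mul hκ.1.continuous hκ.2.1 hκ.2.2 (hH i j l)
    have h2 := integrable_test_mul (pd_smooth l hκ.1).continuous (pd_hasCompactSupport l hκ.2.1)
      ((pd_support l κ).trans hκ.2.2) (hG i j)
    refine h1.add (h2.congr (Filter.Eventually.of_forall fun x => ?_))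
    exact mul_comm _ _
  refine ⟨∑ i, ∑ j, ∑ l, ∫ x, |W i j l x|, ?_⟩
  intro i j l φ M hφ hM
  have hM0 : 0 ≤ M := (abs_nonneg _).trans (hM 0)
  have hloc := localize hΩ l hκ (hG i j) (hH i j l) (hW.H_weak i j l) φ hφ
  rw [hloc, abs_neg]
  have h1 : |∫ x, (κ x * H i j l x + G x i j * pd l κ x) * φ x| ≤ ∫ x, |W i j l x| * M := by
    refine (abs_integral_le_integral_abs).trans ?_
    refine integral_mono_of_nonneg (Filter.Eventually.of_forall fun x => abs_nonneg _)
      ((hWint i j l).abs.mul_const M) (Filter.Eventually.of_forall fun x => ?_)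
    simp only
    rw [abs_mul]
    exact mul_le_mul_of_nonneg_left (hM x) (abs_nonneg _)
  refine h1.trans ?_
  rw [integral_mul_const]
  refine mul_le_mul_of_nonneg_right ?_ hM0
  have hnn : ∀ i j l, 0 ≤ ∫ x, |W i j l x| := fun i j l => integral_nonneg fun x => abs_nonneg _
  calc ∫ x, |W i j l x| ≤ ∑ l, ∫ x, |W i j l x| :=
        Finset.single_le_sum (f := fun l => ∫ x, |W i j l x|) (fun l _ => hnn i j l)
          (Finset.mem_univ l)
    _ ≤ ∑ j, ∑ l, ∫ x, |W i j l x| :=
        Finset.single_le_sum (f := fun j => ∑ l, ∫ x, |W i j l x|)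
          (fun j _ => Finset.sum_nonneg fun l _ => hnn i j l) (Finset.mem_univ j)
    _ ≤ ∑ i, ∑ j, ∑ l, ∫ x, |W i j l x| :=
        Finset.single_le_sum (f := fun i => ∑ j, ∑ l, ∫ x, |W i j l x|)
          (fun i _ => Finset.sum_nonneg fun j _ => Finset.sum_nonneg fun l _ => hnn i j l)
          (Finset.mem_univ i)

end Pool.Agent.Results.MP_941809_an.SecondOrderSobolev
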